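import Pool.Agent.H.MP_e6ec33_pr.A
import Pool.Agent.Lib.helper3.Gnp

namespace Pool.Agent.Results.MP_e6ec33_pr.Isolate

open SimpleGraph MeasureTheory Filter Topology

noncomputable def pathCover {V : Type} (H : SimpleGraph V) : ℕ :=
  sInf {j | ∃ P : List (List V), P.length = j ∧ (∀ l ∈ P, l ≠ [] ∧ l.IsChain H.Adj) ∧
    P.flatten.Nodup ∧ ∀ v, v ∈ P.flatten}

noncomputable def f {V : Type} (k : ℕ) (G : SimpleGraph V) : ℕ∞ :=
  ⨅ (F : Set (Sym2 V)) (_ : F ⊆ G.edgeSet) (_ : pathCover (G.deleteEdges F) = k), F.encard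

open Pool.Agent.H.MP_e6ec33_pr in
open Classical in
lemma ne {n k : ℕ} (G : SimpleGraph (Fin n)) (hn : k < n) {m : ℝ} (hm : 2 * (k + 1) < m)
    (h : ∀ v, |G.degree v - m| < 1 / (4 * (k + 1)) * m) :
    f (k + 1) G + (k + 1 : ℕ) ≠ (k + 1 : ℕ) * G.minDegree := fun e => by
  have : Nonempty (Fin n) := ⟨⟨0, by omega⟩⟩
  rcases le_or_gt (mu G) (k + 1) with h1 | h1
  · obtain ⟨A, h2, h3, h4⟩ := det G (by simpa using hn) h1 (G.degree_le_maxDegree)
    have h5 : f (k + 1) G ≤ (k * G.maxDegree : ℕ) :=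
      iInf_le_of_le (A : Set (Sym2 (Fin n))) <| iInf_le_of_le h2 <| iInf_le_of_le h3 <| by
        rw [Set.encard_coe_eq_coe_finsetCard]; exact_mod_cast h4
    have h6 := e.symm.trans_le (add_le_add_left h5 _)
    obtain ⟨v, hv⟩ := G.exists_minimal_degree_vertex
    obtain ⟨w, hw⟩ := G.exists_maximal_degree_vertex
    rw [hv, hw] at h6
    have h7 : ((k : ℝ) + 1) * G.degree v ≤ k * G.degree w + (k + 1) := by exact_mod_cast h6
    have h8 := (abs_lt.mp (h v)).1
    have h9 := (abs_lt.mp (h w)).2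
    have hk : (0 : ℝ) ≤ k := by positivity
    obtain ⟨x, hx⟩ : ∃ x, x = 1 / (4 * ((k : ℝ) + 1)) * m := ⟨_, rfl⟩
    have : 4 * ((k : ℝ) + 1) * x = m := by rw [hx]; field_simp
    rw [← hx] at h8 h9
    have hx0 : 0 < x := by nlinarith
    nlinarith [mul_le_mul_of_nonneg_left h8.le hk, mul_le_mul_of_nonneg_left h9.le hk, mul_nonneg hk hx0.le]
  · have : f (k + 1) G = ⊤ := by
      simp only [f, iInf_eq_top]
      exact fun F _ h2 => absurd (h1.trans_le (mu_mono (G.deleteEdges_le F))) (not_lt.mpr (le_of_eq h2))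
    rw [this, top_add] at e
    exact ENat.natCast_ne_top _ (by exact_mod_cast e.symm)

open Classical in
theorem result (k : ℕ) (hk : 2 ≤ k) (p : ℕ → unitInterval)
    (hp : Tendsto (fun n : ℕ => (n : ℝ) * p n / Real.log n) atTop atTop) :
    Tendsto (fun n : ℕ => (binomialRandom (Fin n) (p n)).real
      {G | f k G + (k : ℕ∞) = (k : ℕ∞) * (G.minDegree : ℕ∞)}) atTop (𝓝 0) := by
  obtain ⟨k, rfl⟩ : ∃ j, k = j + 1 := ⟨k - 1, by omega⟩
  obtain ⟨ε, hε⟩ : ∃ ε : ℝ, ε = 1 / (4 * (k + 1)) := ⟨_, rfl⟩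
  have hk0 : (0 : ℝ) ≤ k := by positivity
  have h0 : 0 < ε := by rw [hε]; positivity
  have h1 : ε ≤ 1 := by rw [hε, div_le_one (by positivity)]; linarith
  have hl : Tendsto (fun n : ℕ => Real.log n) atTop atTop :=
    Real.tendsto_log_atTop.comp tendsto_natCast_atTop_atTop
  refine squeeze_zero' (Eventually.of_forall fun _ => measureReal_nonneg) ?_
    (tendsto_const_div_atTop_nhds_zero_nat (2 : ℝ))
  filter_upwards [hp.eventually_ge_atTop (16 / ε ^ 2 + 4 * (k + 2)), hl.eventually_ge_atTop 1,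
    eventually_gt_atTop (k + 1)] with n h2 h3 h4
  have h5 : ((n - 1 : ℕ) : ℝ) = n - 1 := by rw [Nat.cast_sub (by omega)]; simp
  have h6 : (2 : ℝ) ≤ n := by exact_mod_cast (by omega : 2 ≤ n)
  rw [le_div_iff₀ (by linarith)] at h2
  have h7 : (0 : ℝ) ≤ p n := (p n).2.1
  have h8 : (0 : ℝ) < 16 / ε ^ 2 := by positivity
  have h9 : 16 / ε ^ 2 * ε ^ 2 = 16 := by field_simp
  have := Lib.helper3.Gnp.deg_tail (V := Fin n) (p n) h0.le h1
  rw [Fintype.card_fin, h5] at this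
  obtain ⟨m, hm⟩ : ∃ m, m = ((n : ℝ) - 1) * p n := ⟨_, rfl⟩
  have hm' : n * (p n : ℝ) ≤ 2 * m := by nlinarith
  rw [← hm] at this
  refine le_trans (measureReal_mono fun G hG => ?_) (this.trans ?_)
  · by_contra hc
    simp only [Set.mem_ofPred_eq, not_exists, not_le] at hc hG
    exact ne G (by omega) (by nlinarith) (hε ▸ hc) hG
  · have e : Real.exp (-(ε ^ 2 / 4 * m)) ≤ Real.exp (-(Real.log n + Real.log n)) := by
      have a1 := mul_le_mul_of_nonneg_left (h2.trans hm') (sq_nonneg ε)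
      have a2 := mul_nonneg (sq_nonneg ε)
        (mul_nonneg (by linarith : (0 : ℝ) ≤ k + 2) (by linarith : 0 ≤ Real.log n))
      have a3 := congrArg (· * Real.log n) h9
      exact Real.exp_le_exp.mpr (by linarith)
    rw [Real.exp_neg (_ + _), Real.exp_add, Real.exp_log (by linarith)] at e
    calc _ ≤ (n : ℝ) * (2 * ((n : ℝ) * n)⁻¹) := by gcongr
      _ = _ := by field_simp

end Pool.Agent.Results.MP_e6ec33_pr.Isolate
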